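import Pool.Agent.H583R2.Expo

/-!
Functions computed in polynomial time by Mathlib's `TM2` machines, and the class `PF`.
-/

set_option autoImplicit false

namespace Pool.Agent.W2helper61

open Turing Pool.Agent.H583R2

/-- polynomials are bounded by powers -/
theorem poly_le_pow (p : Polynomial ℕ) : ∃ c : ℕ, ∀ n : ℕ, p.eval n ≤ (n + 2) ^ c := by
  induction p using Polynomial.induction_on' with
  | add p q hp hq =>
    obtain ⟨c, hc⟩ := hp
    obtain ⟨d, hd⟩ := hq
    refine ⟨c + d + 1, ?_⟩
    intro n
    rw [Polynomial.eval_add]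
    have h1 : (n + 2) ^ c ≤ (n + 2) ^ (c + d) := Nat.pow_le_pow_right (by omega) (by omega)
    have h2 : (n + 2) ^ d ≤ (n + 2) ^ (c + d) := Nat.pow_le_pow_right (by omega) (by omega)
    have h3 : 2 * (n + 2) ^ (c + d) ≤ (n + 2) ^ (c + d + 1) := by
      rw [pow_succ, Nat.mul_comm]
      exact Nat.mul_le_mul_left _ (by omega)
    have h4 := hc n
    have h5 := hd n
    omega
  | monomial m a =>
    refine ⟨a + m, ?_⟩
    intro n
    rw [Polynomial.eval_monomial, pow_add]
    have h1 : a ≤ (n + 2) ^ a := by
      calc a ≤ 2 ^ a := (Nat.lt_two_pow_self).le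
        _ ≤ (n + 2) ^ a := Nat.pow_le_pow_left (by omega) _
    exact Nat.mul_le_mul h1 (Nat.pow_le_pow_left (by omega) _)

theorem pf_powN {α : Type} [TEnc α] {n : α → ℕ} (hn : PF n) (c : ℕ) : PF (fun a => n a ^ c) := by
  induction c with
  | zero => exact (PF.const 1).congr (fun a => (pow_zero _).symm)
  | succ c ih => exact (PF.mul ih hn).congr (fun a => (pow_succ _ _).symm)

/-- functions computed in polynomial time by a machine are in `PF` -/
theorem pf_of_tm {f : List Bool → List Bool}
    (M : TM2ComputableInPolyTime (id : List Bool → List Bool) (id : List Bool → List Bool) f) :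
    PF f := by
  obtain ⟨c, m, h⟩ := code_of_tm M.toTM2ComputableInTime
  obtain ⟨e, he⟩ := poly_le_pow M.time
  have hp : PF (fun x : List Bool => m * (x.length + 2) ^ e) :=
    PF.mul (PF.const m) (pf_powN (PF.add (PF.length PF.id) (PF.const 2)) e)
  refine (PF.getD (PF.U.comp ((PF.const c).pair (PF.id.pair hp))) (PF.const [])).congr ?_
  intro x
  have := h x (m * (x.length + 2) ^ e) (Nat.mul_le_mul_left _ (he x.length))
  simp only [this]
  rfl

/-- functions in `PF` are computed in polynomial time by a machine -/
theorem tm_of_pf {β : Type} {f : List Bool → β} (eb : β → List Bool)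
    (h : PF (fun x => eb (f x))) :
    Nonempty (TM2ComputableInPolyTime (id : List Bool → List Bool) eb f) := by
  obtain ⟨k, M, hM⟩ := tm_poly (f := f) eb h
  refine ⟨{ toTM2ComputableAux := M.toTM2ComputableAux
            time := Polynomial.C k * (Polynomial.X + Polynomial.C 2) ^ k + Polynomial.C k
            outputsFun := fun a => ⟨(M.outputsFun a).toEvalsTo, ?_⟩ }⟩
  refine (M.outputsFun a).steps_le_m.trans ((hM _).trans (le_of_eq ?_))
  simp

end Pool.Agent.W2helper61
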