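import Mathlib

/-!
Cut and paste for length-preserving semi-Thue systems.

A derivation is recorded as a script: the list of its steps, each step being the position (an integer)
where a rule is applied together with the rule.  The history of a cell `c` is the list of the steps
touching `c`, with positions relative to `c`.  Two scripts having equal histories at cell `0` can be
merged: left half of the first, right half of the second.
-/

set_option autoImplicit false

namespace Pool.Agent.W2helper61.SemiThue

variable {α : Type*}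

/-- Step `s = (a, (u, v))` (rule `u → v` applied at position `a`) touches the cell `c`. -/
def Touch (c : ℤ) (s : ℤ × (List α × List α)) : Prop := s.1 ≤ c ∧ c < s.1 + s.2.1.length

instance (c : ℤ) (s : ℤ × (List α × List α)) : Decidable (Touch c s) := by
  unfold Touch; infer_instance

def bef (c : ℤ) (s : ℤ × (List α × List α)) : Option α := s.2.1[(c - s.1).toNat]?
def aft (c : ℤ) (s : ℤ × (List α × List α)) : Option α := s.2.2[(c - s.1).toNat]?

/-- The letters at cell `c`, starting from `x`, are consistent with the script. -/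
def Chain (c : ℤ) : Option α → List (ℤ × (List α × List α)) → Prop
  | _, [] => True
  | x, s :: σ => if Touch c s then x = bef c s ∧ Chain c (aft c s) σ else Chain c x σ

theorem chain_filter (c : ℤ) (σ : List (ℤ × (List α × List α))) : ∀ x : Option α,
    Chain c x σ ↔ Chain c x (σ.filter (fun s => decide (Touch c s))) := by
  induction σ with
  | nil => intro x; simp
  | cons s σ ih =>
    intro x
    by_cases h : Touch c s
    · simp only [h, decide_true, List.filter_cons_of_pos, Chain, if_true]
      rw [ih]
    · simp only [h, decide_false, Bool.false_eq_true, not_false_eq_true,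
        List.filter_cons_of_neg, Chain, if_false]
      rw [ih]

theorem chain_congr (c : ℤ) (σ τ : List (ℤ × (List α × List α))) (x : Option α)
    (h : σ.filter (fun s => decide (Touch c s)) = τ.filter (fun s => decide (Touch c s))) :
    Chain c x σ ↔ Chain c x τ := by
  rw [chain_filter, h, ← chain_filter]

/-- History of the cell `c`. -/
def H (c : ℤ) (σ : List (ℤ × (List α × List α))) : List (ℤ × (List α × List α)) :=
  (σ.filter (fun s => decide (Touch c s))).map (fun s => (s.1 - c, s.2))

def sh (t : ℤ) (s : ℤ × (List α × List α)) : ℤ × (List α × List α) := (s.1 + t, s.2)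

theorem touch_sh (c t : ℤ) (s : ℤ × (List α × List α)) : Touch (c + t) (sh t s) ↔ Touch c s := by
  unfold Touch sh
  constructor
  · rintro ⟨h1, h2⟩
    constructor
    · simpa using h1
    · have : c + t < s.1 + t + (s.2.1.length : ℤ) := h2
      linarith
  · rintro ⟨h1, h2⟩
    refine ⟨by simpa using h1, ?_⟩
    show c + t < s.1 + t + (s.2.1.length : ℤ)
    linarith

theorem chain_sh (c t : ℤ) (σ : List (ℤ × (List α × List α))) : ∀ x : Option α,
    Chain (c + t) x (σ.map (sh t)) ↔ Chain c x σ := by
  induction σ with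
  | nil => intro x; simp [Chain]
  | cons s σ ih =>
    intro x
    have hb : bef (c + t) (sh t s) = bef c s := by
      unfold bef sh; simp
    have ha : aft (c + t) (sh t s) = aft c s := by
      unfold aft sh; simp
    simp only [List.map_cons, Chain, touch_sh, ih, hb, ha]

theorem H_sh (c t : ℤ) (σ : List (ℤ × (List α × List α))) :
    H (c + t) (σ.map (sh t)) = H c σ := by
  induction σ with
  | nil => simp [H]
  | cons s σ ih =>
    unfold H at ih ⊢
    by_cases h : Touch c s
    · have h' : Touch (c + t) (sh t s) := (touch_sh c t s).2 h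
      simp only [List.map_cons, h, h', decide_true, List.filter_cons_of_pos, ih]
      simp [sh]
    · have h' : ¬ Touch (c + t) (sh t s) := fun h'' => h ((touch_sh c t s).1 h'')
      simp only [List.map_cons, h, h', decide_false, Bool.false_eq_true, not_false_eq_true,
        List.filter_cons_of_neg, ih]

/-- Validity of a script on a bi-infinite word with blanks `none`. -/
def Valid (S : Finset (List α × List α)) (w : ℤ → Option α)
    (σ : List (ℤ × (List α × List α))) : Prop :=
  (∀ s ∈ σ, s.2 ∈ S) ∧ ∀ c, Chain c (w c) σ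

theorem valid_sh (S : Finset (List α × List α)) (w : ℤ → Option α)
    (σ : List (ℤ × (List α × List α))) (t : ℤ) (h : Valid S w σ) :
    Valid S (fun c => w (c - t)) (σ.map (sh t)) := by
  refine ⟨?_, ?_⟩
  · intro s hs
    rw [List.mem_map] at hs
    obtain ⟨s', hs', rfl⟩ := hs
    exact h.1 s' hs'
  · intro c
    have := (chain_sh (c - t) t σ (w (c - t))).2 (h.2 (c - t))
    simpa using this

theorem shuffle {T : Type*} (P Q : T → Bool) : ∀ (A B : List T), (∀ a ∈ A, P a = true) →
    (∀ b ∈ B, Q b = true) → A.filter Q = B.filter P →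
    ∃ C : List T, C.filter P = A ∧ C.filter Q = B ∧ ∀ c ∈ C, c ∈ A ∨ c ∈ B := by
  intro A
  induction A with
  | nil =>
    intro B _ hB h
    refine ⟨B, ?_, ?_, ?_⟩
    · simpa using h.symm
    · exact List.filter_eq_self.2 hB
    · intro c hc; right; exact hc
  | cons a A ihA =>
    intro B
    induction B with
    | nil =>
      intro hA _ h
      refine ⟨a :: A, List.filter_eq_self.2 hA, ?_, ?_⟩
      · simpa using h
      · intro c hc; left; exact hc
    | cons b B ihB =>
      intro hA hB h
      have hPa : P a = true := hA a (by simp)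
      have hQb : Q b = true := hB b (by simp)
      have hA' : ∀ a ∈ A, P a = true := fun x hx => hA x (by simp [hx])
      have hB' : ∀ b ∈ B, Q b = true := fun x hx => hB x (by simp [hx])
      by_cases hQa : Q a = true
      · by_cases hPb : P b = true
        · rw [List.filter_cons_of_pos hQa, List.filter_cons_of_pos hPb] at h
          injection h with h1 h2
          subst h1
          obtain ⟨C, hC1, hC2, hC3⟩ := ihA B hA' hB' h2
          refine ⟨a :: C, ?_, ?_, ?_⟩
          · rw [List.filter_cons_of_pos hPa, hC1]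
          · rw [List.filter_cons_of_pos hQa, hC2]
          · intro c hc
            rcases List.mem_cons.1 hc with rfl | hc
            · left; simp
            · rcases hC3 c hc with h' | h'
              · left; simp [h']
              · right; simp [h']
        · rw [List.filter_cons_of_neg (l := B) (by simpa using hPb)] at h
          obtain ⟨C, hC1, hC2, hC3⟩ := ihB hA hB' h
          refine ⟨b :: C, ?_, ?_, ?_⟩
          · rw [List.filter_cons_of_neg (by simpa using hPb), hC1]
          · rw [List.filter_cons_of_pos hQb, hC2]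
          · intro c hc
            rcases List.mem_cons.1 hc with rfl | hc
            · right; simp
            · rcases hC3 c hc with h' | h'
              · left; exact h'
              · right; simp [h']
      · rw [List.filter_cons_of_neg (by simpa using hQa)] at h
        obtain ⟨C, hC1, hC2, hC3⟩ := ihA (b :: B) hA' hB h
        refine ⟨a :: C, ?_, ?_, ?_⟩
        · rw [List.filter_cons_of_pos hPa, hC1]
        · rw [List.filter_cons_of_neg (by simpa using hQa), hC2]
        · intro c hc
          rcases List.mem_cons.1 hc with rfl | hc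
          · left; simp
          · rcases hC3 c hc with h' | h'
            · left; simp [h']
            · right; exact h'

theorem H_zero (σ : List (ℤ × (List α × List α))) :
    H 0 σ = σ.filter (fun s => decide (Touch 0 s)) := by
  unfold H
  simp

theorem filter_filter_of_imp {T : Type*} (P R : T → Bool) (l : List T)
    (h : ∀ x, R x = true → P x = true) : (l.filter P).filter R = l.filter R := by
  rw [List.filter_filter]
  apply List.filter_congr
  intro x _
  by_cases hR : R x = true
  · simp [hR, h x hR]
  · simp [hR]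

/-- The merge lemma. -/
theorem merge (S : Finset (List α × List α)) (w1 w2 : ℤ → Option α)
    (σ1 σ2 : List (ℤ × (List α × List α))) (h1 : Valid S w1 σ1) (h2 : Valid S w2 σ2)
    (hH : H 0 σ1 = H 0 σ2) :
    ∃ σ, Valid S (fun c => if c < 0 then w1 c else w2 c) σ ∧
      (∀ c ≤ 0, H c σ = H c σ1) ∧ (∀ c ≥ 0, H c σ = H c σ2) := by
  classical
  set P : ℤ × (List α × List α) → Bool := fun s => decide (s.1 ≤ 0) with hP
  set Q : ℤ × (List α × List α) → Bool := fun s => decide (0 < s.1 + s.2.1.length) with hQ
  have hPQ : ∀ σ : List (ℤ × (List α × List α)), (σ.filter P).filter Q =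
      σ.filter (fun s => decide (Touch 0 s)) := by
    intro σ
    rw [List.filter_filter]
    apply List.filter_congr
    intro x _
    simp only [hP, hQ, Touch]
    by_cases h1 : x.1 ≤ 0 <;> by_cases h2 : 0 < x.1 + (x.2.1.length : ℤ) <;> simp [h1, h2]
  have hQP : ∀ σ : List (ℤ × (List α × List α)), (σ.filter Q).filter P =
      σ.filter (fun s => decide (Touch 0 s)) := by
    intro σ
    rw [List.filter_filter]
    apply List.filter_congr
    intro x _
    simp only [hP, hQ, Touch]
    by_cases h1 : x.1 ≤ 0 <;> by_cases h2 : 0 < x.1 + (x.2.1.length : ℤ) <;> simp [h1, h2]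
  obtain ⟨σ, hσ1, hσ2, hσ3⟩ := shuffle P Q (σ1.filter P) (σ2.filter Q)
    (fun a ha => (List.mem_filter.1 ha).2) (fun a ha => (List.mem_filter.1 ha).2)
    (by rw [hPQ, hQP, ← H_zero, ← H_zero, hH])
  have hleft : ∀ c ≤ 0, σ.filter (fun s => decide (Touch c s)) =
      σ1.filter (fun s => decide (Touch c s)) := by
    intro c hc
    have himp : ∀ x : ℤ × (List α × List α), decide (Touch c x) = true → P x = true := by
      intro x hx
      simp only [hP, decide_eq_true_eq] at hx ⊢
      exact le_trans hx.1 hc
    rw [← filter_filter_of_imp P _ σ himp, hσ1, filter_filter_of_imp P _ σ1 himp]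
  have hright : ∀ c ≥ 0, σ.filter (fun s => decide (Touch c s)) =
      σ2.filter (fun s => decide (Touch c s)) := by
    intro c hc
    have himp : ∀ x : ℤ × (List α × List α), decide (Touch c x) = true → Q x = true := by
      intro x hx
      simp only [hQ, decide_eq_true_eq] at hx ⊢
      exact lt_of_le_of_lt hc hx.2
    rw [← filter_filter_of_imp Q _ σ himp, hσ2, filter_filter_of_imp Q _ σ2 himp]
  refine ⟨σ, ⟨?_, ?_⟩, ?_, ?_⟩
  · intro s hs
    rcases hσ3 s hs with h | h
    · exact h1.1 s (List.mem_filter.1 h).1
    · exact h2.1 s (List.mem_filter.1 h).1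
  · intro c
    by_cases hc : c < 0
    · simp only [hc, if_true]
      rw [chain_congr c σ σ1 _ (hleft c hc.le)]
      exact h1.2 c
    · simp only [hc, if_false]
      rw [chain_congr c σ σ2 _ (hright c (not_lt.1 hc))]
      exact h2.2 c
  · intro c hc
    unfold H
    rw [hleft c hc]
  · intro c hc
    unfold H
    rw [hright c hc]

/-- `w` is a word occupying the cells `[lo, hi)`. -/
def IsWord (w : ℤ → Option α) (lo hi : ℤ) : Prop := ∀ c, (w c).isSome = true ↔ lo ≤ c ∧ c < hi

def Realized (S : Finset (List α × List α)) (E : List (ℤ × (List α × List α))) (a b : ℤ) : Prop :=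
  ∃ w σ, Valid S w σ ∧ IsWord w (-a) b ∧ H 0 σ = E

theorem merge_realized (S : Finset (List α × List α)) (E : List (ℤ × (List α × List α)))
    (a b a' b' : ℤ) (ha' : 0 ≤ a') (hb' : 0 < b') (ha : 0 ≤ a) (hb : 0 < b)
    (h : Realized S E a b') (h' : Realized S E a' b) : Realized S E a b := by
  obtain ⟨w1, σ1, hv1, hw1, hE1⟩ := h
  obtain ⟨w2, σ2, hv2, hw2, hE2⟩ := h'
  obtain ⟨σ, hv, hl, hr⟩ := merge S w1 w2 σ1 σ2 hv1 hv2 (by rw [hE1, hE2])
  refine ⟨_, σ, hv, ?_, ?_⟩
  · intro c
    by_cases hc : c < 0
    · simp only [hc, if_true]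
      rw [hw1]
      constructor
      · rintro ⟨h1, h2⟩; exact ⟨h1, by linarith⟩
      · rintro ⟨h1, h2⟩; exact ⟨h1, by linarith⟩
    · simp only [hc, if_false]
      rw [hw2]
      constructor
      · rintro ⟨h1, h2⟩; exact ⟨by linarith, h2⟩
      · rintro ⟨h1, h2⟩
        exact ⟨by linarith, h2⟩
  · rw [hr 0 le_rfl, hE2]

theorem cut (S : Finset (List α × List α)) (w : ℤ → Option α)
    (σ : List (ℤ × (List α × List α))) (hv : Valid S w σ) (lo hi g h : ℤ)
    (hw : IsWord w lo hi) (hg : lo ≤ g) (hgh : g < h) (hh : h < hi) (hH : H g σ = H h σ) :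
    ∃ w' σ', Valid S w' σ' ∧ IsWord w' (lo - g) (hi - h) ∧
      (∀ c ≤ 0, H c σ' = H (c + g) σ) ∧ (∀ c ≥ 0, H c σ' = H (c + h) σ) := by
  have hHsh : ∀ c t : ℤ, H c (σ.map (sh (-t))) = H (c + t) σ := by
    intro c t
    have := H_sh (c + t) (-t) σ
    rw [← this]
    congr 1
    ring
  obtain ⟨σ', hv', hl, hr⟩ := merge S _ _ (σ.map (sh (-g))) (σ.map (sh (-h)))
    (valid_sh S w σ (-g) hv) (valid_sh S w σ (-h) hv) (by rw [hHsh, hHsh]; simpa using hH)
  refine ⟨_, σ', hv', ?_, ?_, ?_⟩
  · intro c
    by_cases hc : c < 0
    · simp only [hc, if_true]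
      rw [hw]
      constructor
      · rintro ⟨h1, h2⟩; exact ⟨by linarith, by linarith⟩
      · rintro ⟨h1, h2⟩; exact ⟨by linarith, by linarith⟩
    · simp only [hc, if_false]
      rw [hw]
      constructor
      · rintro ⟨h1, h2⟩; exact ⟨by linarith, by linarith⟩
      · rintro ⟨h1, h2⟩; exact ⟨by linarith, by linarith⟩
  · intro c hc
    rw [hl c hc, hHsh]
  · intro c hc
    rw [hr c hc, hHsh]

theorem isWord_sh (w : ℤ → Option α) (lo hi t : ℤ) (hw : IsWord w lo hi) :
    IsWord (fun c => w (c - t)) (lo + t) (hi + t) := by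
  intro c
  show (w (c - t)).isSome = true ↔ _
  rw [hw]
  constructor
  · rintro ⟨h1, h2⟩; exact ⟨by linarith, by linarith⟩
  · rintro ⟨h1, h2⟩; exact ⟨by linarith, by linarith⟩

/-- A realized history is realized on a word where the histories of all cells to the left
(resp. to the right) of cell `0` are pairwise distinct. -/
theorem exists_distinct (S : Finset (List α × List α)) (E : List (ℤ × (List α × List α)))
    (a0 b0 : ℕ) (hb0 : 0 < b0) (h0 : Realized S E a0 b0) :
    ∃ (a b : ℕ) (w : ℤ → Option α) (σ : List (ℤ × (List α × List α))), 0 < b ∧ Valid S w σ ∧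
      IsWord w (-(a : ℤ)) b ∧ H 0 σ = E ∧
      Set.InjOn (fun g => H g σ) (Set.Icc (-(a : ℤ)) 0) ∧
      Set.InjOn (fun g => H g σ) (Set.Ico 0 (b : ℤ)) := by
  classical
  have hexA : ∃ a : ℕ, ∃ b : ℕ, 0 < b ∧ Realized S E a b := ⟨a0, b0, hb0, h0⟩
  have hexB : ∃ b : ℕ, 0 < b ∧ ∃ a : ℕ, Realized S E a b := ⟨b0, hb0, a0, h0⟩
  set A := Nat.find hexA with hA
  set B := Nat.find hexB with hB
  obtain ⟨b1, hb1, hR1⟩ := Nat.find_spec hexA
  obtain ⟨hBpos, a1, hR2⟩ := Nat.find_spec hexB
  rw [← hA] at hR1
  rw [← hB] at hBpos hR2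
  have hminA : ∀ a b : ℕ, 0 < b → Realized S E a b → A ≤ a := by
    intro a b hb h
    exact Nat.find_min' hexA ⟨b, hb, h⟩
  have hminB : ∀ a b : ℕ, 0 < b → Realized S E a b → B ≤ b := by
    intro a b hb h
    exact Nat.find_min' hexB ⟨hb, a, h⟩
  have hR : Realized S E (A : ℤ) (B : ℤ) :=
    merge_realized S E A B a1 b1 (by positivity) (by exact_mod_cast hb1) (by positivity)
      (by exact_mod_cast hBpos) hR1 hR2
  obtain ⟨w, σ, hv, hw, hE⟩ := hR
  have key1 : ∀ g h : ℤ, -(A : ℤ) ≤ g → g < h → h ≤ 0 → H g σ ≠ H h σ := by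
    intro g h hg hgh hh heq
    obtain ⟨w', σ', hv', hw', hl', hr'⟩ := cut S w σ hv (-(A : ℤ)) B g h hw hg hgh
      (lt_of_le_of_lt hh (by exact_mod_cast hBpos)) heq
    have hR' : Realized S E ((A : ℤ) - (h - g)) B := by
      refine ⟨_, _, valid_sh S w' σ' h hv', ?_, ?_⟩
      · have := isWord_sh w' _ _ h hw'
        have e1 : -(A : ℤ) - g + h = -((A : ℤ) - (h - g)) := by ring
        have e2 : (B : ℤ) - h + h = B := by ring
        rw [e1, e2] at this
        exact this
      · have := H_sh (-h) h σ'
        rw [neg_add_cancel] at this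
        rw [this, hr' (-h) (by linarith), neg_add_cancel, hE]
    have hnn : 0 ≤ (A : ℤ) - (h - g) := by linarith
    obtain ⟨a', ha'⟩ := Int.eq_ofNat_of_zero_le hnn
    rw [ha'] at hR'
    have := hminA a' B hBpos hR'
    have : (A : ℤ) ≤ a' := by exact_mod_cast this
    linarith
  have key2 : ∀ g h : ℤ, 0 ≤ g → g < h → h < B → H g σ ≠ H h σ := by
    intro g h hg hgh hh heq
    obtain ⟨w', σ', hv', hw', hl', hr'⟩ := cut S w σ hv (-(A : ℤ)) B g h hw
      (le_trans (by simp) hg) hgh hh heq
    have hR' : Realized S E (A : ℤ) ((B : ℤ) - (h - g)) := by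
      refine ⟨_, _, valid_sh S w' σ' g hv', ?_, ?_⟩
      · have := isWord_sh w' _ _ g hw'
        have e1 : -(A : ℤ) - g + g = -(A : ℤ) := by ring
        have e2 : (B : ℤ) - h + g = (B : ℤ) - (h - g) := by ring
        rw [e1, e2] at this
        exact this
      · have := H_sh (-g) g σ'
        rw [neg_add_cancel] at this
        rw [this, hl' (-g) (by linarith), neg_add_cancel, hE]
    have hnn : 0 ≤ (B : ℤ) - (h - g) := by linarith
    obtain ⟨b', hb'⟩ := Int.eq_ofNat_of_zero_le hnn
    rw [hb'] at hR'
    have hb'pos : 0 < b' := by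
      have : 0 < (b' : ℤ) := by
        have e : (b' : ℤ) = (B : ℤ) - (h - g) := hb'.symm
        rw [e]; linarith
      exact_mod_cast this
    have := hminB A b' hb'pos hR'
    have h3 : (B : ℤ) ≤ b' := by exact_mod_cast this
    have e : (b' : ℤ) = (B : ℤ) - (h - g) := hb'.symm
    linarith
  refine ⟨A, B, w, σ, hBpos, hv, hw, hE, ?_, ?_⟩
  · intro g hg h hh heq
    rcases lt_trichotomy g h with hlt | heq' | hgt
    · exact absurd heq (key1 g h hg.1 hlt hh.2)
    · exact heq'
    · exact absurd heq.symm (key1 h g hh.1 hgt hg.2)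
  · intro g hg h hh heq
    rcases lt_trichotomy g h with hlt | heq' | hgt
    · exact absurd heq (key2 g h hg.1 hlt hh.2)
    · exact heq'
    · exact absurd heq.symm (key2 h g hh.1 hgt hg.2)

/-! ### Counting -/

theorem H_cons_length (g : ℤ) (s : ℤ × (List α × List α)) (σ : List (ℤ × (List α × List α))) :
    (H g (s :: σ)).length = (if Touch g s then 1 else 0) + (H g σ).length := by
  unfold H
  by_cases h : Touch g s
  · simp [h]; ring
  · simp [h]

theorem sum_H_le (S : Finset (List α × List α)) (K : ℕ) (hK : ∀ p ∈ S, p.1.length ≤ K)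
    (G : Finset ℤ) (σ : List (ℤ × (List α × List α))) (hσ : ∀ s ∈ σ, s.2 ∈ S) :
    ∑ g ∈ G, (H g σ).length ≤ K * σ.length := by
  induction σ with
  | nil => simp [H]
  | cons s σ ih =>
    have ih' := ih (fun x hx => hσ x (by simp [hx]))
    simp only [H_cons_length, Finset.sum_add_distrib, List.length_cons]
    have h1 : ∑ g ∈ G, (if Touch g s then 1 else 0) ≤ K := by
      rw [← Finset.card_filter]
      have hsub : G.filter (fun g => Touch g s) ⊆ Finset.Ico s.1 (s.1 + s.2.1.length) := by
        intro g hg
        rw [Finset.mem_filter] at hg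
        rw [Finset.mem_Ico]
        exact hg.2
      refine le_trans (Finset.card_le_card hsub) ?_
      rw [Int.card_Ico]
      have := hK s.2 (hσ s (by simp))
      simp
      exact this
    calc _ ≤ K + K * σ.length := Nat.add_le_add h1 ih'
      _ = K * (σ.length + 1) := by ring

theorem few_short [DecidableEq α] (S : Finset (List α × List α)) (K : ℕ)
    (hK : ∀ p ∈ S, p.1.length ≤ K)
    (G : Finset ℤ) (σ : List (ℤ × (List α × List α))) (hσ : ∀ s ∈ σ, s.2 ∈ S)
    (hinj : Set.InjOn (fun g => H g σ) (G : Set ℤ)) (l : ℕ) :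
    (G.filter (fun g => (H g σ).length ≤ l)).card ≤ (K * S.card + 1) ^ l := by
  classical
  set Λ : Finset (ℤ × (List α × List α)) := Finset.Ioc (-(K : ℤ)) 0 ×ˢ S with hΛ
  have hΛcard : Λ.card = K * S.card := by
    rw [hΛ, Finset.card_product, Int.card_Ioc]
    simp
  have hmem : ∀ g, ∀ e ∈ H g σ, e ∈ Λ := by
    intro g e he
    unfold H at he
    rw [List.mem_map] at he
    obtain ⟨s, hs, rfl⟩ := he
    rw [List.mem_filter] at hs
    obtain ⟨hs1, hs2⟩ := hs
    simp only [decide_eq_true_eq] at hs2
    obtain ⟨ht1, ht2⟩ := hs2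
    rw [hΛ, Finset.mem_product, Finset.mem_Ioc]
    have h2 : (s.2.1.length : ℤ) ≤ K := by exact_mod_cast hK s.2 (hσ s hs1)
    refine ⟨⟨?_, ?_⟩, hσ s hs1⟩
    · show -(K : ℤ) < s.1 - g
      linarith
    · show s.1 - g ≤ 0
      linarith
  have hcard : (Fintype.piFinset (fun _ : Fin l => Finset.insertNone Λ)).card
      = (K * S.card + 1) ^ l := by
    rw [Fintype.card_piFinset]
    simp [hΛcard]
  rw [← hcard]
  apply Finset.card_le_card_of_injOn (fun g => fun i : Fin l => (H g σ)[(i : ℕ)]?)
  · intro g hg
    rw [Finset.mem_coe, Fintype.mem_piFinset]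
    intro i
    rw [Finset.mem_insertNone]
    intro e he
    apply hmem g
    exact List.mem_of_getElem? he
  · intro g hg h hh heq
    rw [Finset.mem_coe, Finset.mem_filter] at hg hh
    apply hinj hg.1 hh.1
    apply List.ext_getElem?
    intro i
    by_cases hi : i < l
    · exact congrFun heq ⟨i, hi⟩
    · have h1 : (H g σ)[i]? = none := by
        rw [List.getElem?_eq_none_iff]; omega
      have h2 : (H h σ)[i]? = none := by
        rw [List.getElem?_eq_none_iff]; omega
      rw [h1, h2]

theorem sum_lower [DecidableEq α] (S : Finset (List α × List α)) (K : ℕ)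
    (hK : ∀ p ∈ S, p.1.length ≤ K)
    (G : Finset ℤ) (σ : List (ℤ × (List α × List α))) (hσ : ∀ s ∈ σ, s.2 ∈ S)
    (hinj : Set.InjOn (fun g => H g σ) (G : Set ℤ)) (l : ℕ) :
    (G.card - (K * S.card + 1) ^ l) * (l + 1) ≤ K * σ.length := by
  have h1 := few_short S K hK G σ hσ hinj l
  have h2 := sum_H_le S K hK G σ hσ
  have h3 : (G.card - (K * S.card + 1) ^ l) ≤
      (G.filter (fun g => ¬ (H g σ).length ≤ l)).card := by
    have := Finset.card_filter_add_card_filter_not (s := G) (fun g => (H g σ).length ≤ l)
    omega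
  calc (G.card - (K * S.card + 1) ^ l) * (l + 1)
      ≤ (G.filter (fun g => ¬ (H g σ).length ≤ l)).card * (l + 1) :=
        Nat.mul_le_mul_right _ h3
    _ = ∑ g ∈ G.filter (fun g => ¬ (H g σ).length ≤ l), (l + 1) := by
        rw [Finset.sum_const, smul_eq_mul]
    _ ≤ ∑ g ∈ G.filter (fun g => ¬ (H g σ).length ≤ l), (H g σ).length := by
        apply Finset.sum_le_sum
        intro g hg
        rw [Finset.mem_filter] at hg
        omega
    _ ≤ ∑ g ∈ G, (H g σ).length := by
        apply Finset.sum_le_sum_of_subset
        exact Finset.filter_subset _ _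
    _ ≤ _ := h2

/-! ### Derivations and scripts -/

/-- `f` is a derivation of length (at least) `m`. -/
def Deriv (S : Finset (List α × List α)) (m : ℕ) (f : ℕ → List α) : Prop :=
  ∀ i < m, ∃ x y : List α, ∃ p ∈ S, f i = x ++ p.1 ++ y ∧ f (i + 1) = x ++ p.2 ++ y

def toW (lo : ℤ) (l : List α) : ℤ → Option α :=
  fun c => if lo ≤ c then l[(c - lo).toNat]? else none

theorem toW_touch (lo : ℤ) (x u y : List α) (c : ℤ) (h1 : lo + x.length ≤ c)
    (h2 : c < lo + x.length + u.length) :
    toW lo (x ++ u ++ y) c = u[(c - (lo + x.length)).toNat]? := by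
  unfold toW
  have h0 : lo ≤ c := by
    have : (0 : ℤ) ≤ x.length := by positivity
    linarith
  rw [if_pos h0]
  obtain ⟨k, hk⟩ := Int.eq_ofNat_of_zero_le (show 0 ≤ c - (lo + x.length) by linarith)
  have e1 : (c - lo).toNat = x.length + k := by omega
  have e2 : (c - (lo + x.length)).toNat = k := by omega
  have hk' : k < u.length := by omega
  rw [e1, e2, List.append_assoc, List.getElem?_append_right (by omega)]
  rw [List.getElem?_append_left (by omega)]
  congr 1
  omega

theorem toW_untouched (lo : ℤ) (x u v y : List α) (huv : u.length = v.length) (c : ℤ)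
    (h : ¬ (lo + x.length ≤ c ∧ c < lo + x.length + u.length)) :
    toW lo (x ++ u ++ y) c = toW lo (x ++ v ++ y) c := by
  unfold toW
  by_cases h0 : lo ≤ c
  · rw [if_pos h0, if_pos h0]
    by_cases h1 : (c - lo).toNat < x.length
    · rw [List.append_assoc, List.append_assoc, List.getElem?_append_left h1,
        List.getElem?_append_left h1]
    · have h2 : x.length + u.length ≤ (c - lo).toNat := by
        by_contra hcon
        apply h
        constructor <;> omega
      rw [List.getElem?_append_right (by simpa using h2),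
        List.getElem?_append_right (by simp; omega)]
      congr 1
      simp [huv]
  · rw [if_neg h0, if_neg h0]

theorem exists_script (S : Finset (List α × List α))
    (hlen : ∀ p ∈ S, p.1.length = p.2.length) : ∀ (m : ℕ) (f : ℕ → List α), Deriv S m f →
    ∃ σ, σ.length = m ∧ Valid S (toW 0 (f 0)) σ := by
  intro m
  induction m with
  | zero =>
    intro f _
    exact ⟨[], rfl, by simp, by intro c; simp [Chain]⟩
  | succ m ih =>
    intro f hf
    obtain ⟨σ, hσ, hv⟩ := ih (fun i => f (i + 1)) (fun i hi => hf (i + 1) (by omega))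
    obtain ⟨x, y, p, hp, h0, h1⟩ := hf 0 (by omega)
    simp only [zero_add] at hv h1
    refine ⟨((x.length : ℤ), p) :: σ, by simp [hσ], ?_, ?_⟩
    · intro s hs
      rcases List.mem_cons.1 hs with rfl | hs
      · exact hp
      · exact hv.1 s hs
    · intro c
      have hc := hv.2 c
      rw [h1] at hc
      rw [h0]
      unfold Chain
      by_cases ht : Touch c ((x.length : ℤ), p)
      · rw [if_pos ht]
        have ht' := ht
        obtain ⟨ht1, ht2⟩ := ht'
        simp only at ht1 ht2
        constructor
        · rw [toW_touch 0 x p.1 y c (by simpa using ht1) (by simpa using ht2)]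
          simp [bef]
        · rw [toW_touch 0 x p.2 y c (by simpa using ht1)
            (by rw [← hlen p hp]; simpa using ht2)] at hc
          have e : aft c ((x.length : ℤ), p) = p.2[(c - (0 + (x.length : ℤ))).toNat]? := by
            simp [aft]
          rw [e]
          exact hc
      · rw [if_neg ht]
        rw [toW_untouched 0 x p.1 p.2 y (hlen p hp) c (by
          intro hcon
          apply ht
          simpa [Touch] using hcon)]
        exact hc

theorem exists_deriv (S : Finset (List α × List α))
    (hlen : ∀ p ∈ S, p.1.length = p.2.length) (hpos : ∀ p ∈ S, 0 < p.1.length) (lo : ℤ) :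
    ∀ (σ : List (ℤ × (List α × List α))) (l : List α), Valid S (toW lo l) σ →
    ∃ f : ℕ → List α, f 0 = l ∧ Deriv S σ.length f := by
  intro σ
  induction σ with
  | nil =>
    intro l _
    exact ⟨fun _ => l, rfl, by intro i hi; simp at hi⟩
  | cons s σ ih =>
    intro l hv
    obtain ⟨a, p⟩ := s
    have hp : p ∈ S := hv.1 (a, p) (by simp)
    have hpl := hlen p hp
    have hpp := hpos p hp
    have hchain : ∀ c, Touch c (a, p) → toW lo l c = p.1[(c - a).toNat]? ∧
        Chain c (p.2[(c - a).toNat]?) σ := by
      intro c hc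
      have := hv.2 c
      unfold Chain at this
      rw [if_pos hc] at this
      exact this
    have hin : ∀ j : ℕ, j < p.1.length → lo ≤ a + j ∧ a + j < lo + l.length := by
      intro j hj
      have htc : Touch (a + j) (a, p) := by
        constructor
        · show a ≤ a + j
          omega
        · show a + (j : ℤ) < a + p.1.length
          omega
      have h1 := (hchain _ htc).1
      have e : (a + (j : ℤ) - a).toNat = j := by omega
      rw [e] at h1
      have h2 : p.1[j]? ≠ none := by
        rw [Ne, List.getElem?_eq_none_iff]; omega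
      rw [← h1] at h2
      unfold toW at h2
      split_ifs at h2 with h3
      · rw [Ne, List.getElem?_eq_none_iff] at h2
        constructor
        · exact h3
        · omega
      · exact absurd rfl h2
    have hlo : lo ≤ a := by
      have := (hin 0 hpp).1
      simpa using this
    obtain ⟨k, hk⟩ := Int.eq_ofNat_of_zero_le (show 0 ≤ a - lo by linarith)
    have ha : a = lo + k := by
      have : (a - lo : ℤ) = (k : ℤ) := hk
      linarith
    have hhi : k + p.1.length ≤ l.length := by
      have := (hin (p.1.length - 1) (by omega)).2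
      omega
    have hsplit : l = l.take k ++ p.1 ++ l.drop (k + p.1.length) := by
      apply List.ext_getElem?
      intro i
      by_cases h1 : i < k
      · rw [List.append_assoc, List.getElem?_append_left (by simp; omega)]
        rw [List.getElem?_take_of_lt h1]
      · by_cases h2 : i < k + p.1.length
        · have h3 := (hchain (lo + i) ⟨by show a ≤ lo + i; omega,
            by show lo + (i : ℤ) < a + p.1.length; omega⟩).1
          have e1 : toW lo l (lo + i) = l[i]? := by
            unfold toW
            rw [if_pos (by omega)]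
            congr 1
            omega
          rw [e1] at h3
          rw [h3, List.append_assoc, List.getElem?_append_right (by simp; omega),
            List.getElem?_append_left (by simp; omega)]
          congr 1
          simp
          omega
        · rw [List.getElem?_append_right (by simp; omega), List.getElem?_drop]
          congr 1
          simp
          omega
    set x := l.take k with hx
    set y := l.drop (k + p.1.length) with hy
    have hxl : x.length = k := by rw [hx]; simp; omega
    have hv' : Valid S (toW lo (x ++ p.2 ++ y)) σ := by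
      refine ⟨fun s hs => hv.1 s (by simp [hs]), ?_⟩
      intro c
      by_cases hc : Touch c (a, p)
      · have h1 := (hchain c hc).2
        obtain ⟨hc1, hc2⟩ := hc
        simp only at hc1 hc2
        rw [toW_touch lo x p.2 y c (by omega) (by omega)]
        have e : lo + (x.length : ℤ) = a := by rw [hxl]; omega
        rw [e]
        exact h1
      · have h1 := hv.2 c
        unfold Chain at h1
        rw [if_neg hc] at h1
        rw [← toW_untouched lo x p.1 p.2 y hpl c (by
          intro hcon
          apply hc
          have e : lo + (x.length : ℤ) = a := by rw [hxl]; omega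
          rw [e] at hcon
          exact hcon), ← hsplit]
        exact h1
    obtain ⟨f, hf0, hf⟩ := ih _ hv'
    refine ⟨fun i => if i = 0 then l else f (i - 1), by simp, ?_⟩
    intro i hi
    rcases Nat.eq_zero_or_pos i with rfl | hipos
    · refine ⟨x, y, p, hp, ?_, ?_⟩
      · simpa using hsplit
      · simpa using hf0
    · obtain ⟨x', y', p', hp', h1, h2⟩ := hf (i - 1) (by
        simp only [List.length_cons] at hi
        omega)
      refine ⟨x', y', p', hp', ?_, ?_⟩
      · show (if i = 0 then l else f (i - 1)) = _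
        rw [if_neg (by omega)]
        exact h1
      · show (if i + 1 = 0 then l else f (i + 1 - 1)) = _
        rw [if_neg (by omega)]
        have e : i + 1 - 1 = i - 1 + 1 := by omega
        rw [e]
        exact h2

theorem exists_list (w : ℤ → Option α) (lo : ℤ) (n : ℕ) (hw : IsWord w lo (lo + n)) :
    ∃ l : List α, l.length = n ∧ toW lo l = w := by
  classical
  refine ⟨List.ofFn (fun i : Fin n => (w (lo + i)).get ((hw (lo + i)).2 ⟨by omega, by
    have := i.2
    omega⟩)), by simp, ?_⟩
  funext c
  unfold toW
  by_cases h1 : lo ≤ c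
  · rw [if_pos h1]
    obtain ⟨k, hk⟩ := Int.eq_ofNat_of_zero_le (show 0 ≤ c - lo by linarith)
    have hc : c = lo + k := by
      have : (c - lo : ℤ) = (k : ℤ) := hk
      linarith
    subst hc
    have e : (lo + (k : ℤ) - lo).toNat = k := by omega
    rw [e, List.getElem?_ofFn]
    by_cases h2 : k < n
    · rw [dif_pos h2]
      simp
    · rw [dif_neg h2]
      have h3 : ¬ (w (lo + k)).isSome = true := by
        rw [hw]
        omega
      symm
      simpa using h3
  · rw [if_neg h1]
    have h3 : ¬ (w c).isSome = true := by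
      rw [hw]
      omega
    symm
    simpa using h3

/-! ### Boundedness -/

def DS (S : Finset (List α × List α)) (n : ℕ) : Set ℕ :=
  {m : ℕ | ∃ f : ℕ → List α, (f 0).length ≤ n ∧
        ∀ i < m, ∃ x y : List α, ∃ p ∈ S,
          f i = x ++ p.1 ++ y ∧ f (i + 1) = x ++ p.2 ++ y}

theorem pos_of_term (S : Finset (List α × List α))
    (hlen : ∀ p ∈ S, p.1.length = p.2.length)
    (hterm : ¬ ∃ f : ℕ → List α, ∀ i : ℕ, ∃ x y : List α, ∃ p ∈ S,
        f i = x ++ p.1 ++ y ∧ f (i + 1) = x ++ p.2 ++ y) : ∀ p ∈ S, 0 < p.1.length := by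
  intro p hp
  by_contra hcon
  apply hterm
  have h1 : p.1 = [] := by
    apply List.eq_nil_of_length_eq_zero; omega
  have h2 : p.2 = [] := by
    apply List.eq_nil_of_length_eq_zero
    have := hlen p hp
    omega
  exact ⟨fun _ => [], fun i => ⟨[], [], p, hp, by simp [h1], by simp [h2]⟩⟩

theorem deriv_length (S : Finset (List α × List α))
    (hlen : ∀ p ∈ S, p.1.length = p.2.length) (m : ℕ) (f : ℕ → List α) (hf : Deriv S m f) :
    ∀ i ≤ m, (f i).length = (f 0).length := by
  intro i
  induction i with
  | zero => intro _; rfl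
  | succ i ih =>
    intro hi
    obtain ⟨x, y, p, hp, h1, h2⟩ := hf i (by omega)
    rw [← ih (by omega), h1, h2]
    simp [hlen p hp]

theorem bdd (S : Finset (List α × List α)) [Finite α]
    (hlen : ∀ p ∈ S, p.1.length = p.2.length)
    (hterm : ¬ ∃ f : ℕ → List α, ∀ i : ℕ, ∃ x y : List α, ∃ p ∈ S,
        f i = x ++ p.1 ++ y ∧ f (i + 1) = x ++ p.2 ++ y) (n : ℕ) : BddAbove (DS S n) := by
  classical
  have hfin : Set.Finite {l : List α | l.length ≤ n} := List.finite_length_le α n
  refine ⟨hfin.toFinset.card, ?_⟩
  rintro m ⟨f, hf0, hf⟩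
  by_contra hcon
  rw [not_le] at hcon
  have hmaps : ∀ i ∈ Finset.range (m + 1), f i ∈ hfin.toFinset := by
    intro i hi
    rw [Finset.mem_range] at hi
    rw [Set.Finite.mem_toFinset]
    show (f i).length ≤ n
    rw [deriv_length S hlen m f hf i (by omega)]
    exact hf0
  obtain ⟨i, hi, j, hj, hij, heq⟩ := Finset.exists_ne_map_eq_of_card_lt_of_maps_to
    (by rw [Finset.card_range]; omega) hmaps
  rw [Finset.mem_range] at hi hj
  have main : ∀ i j : ℕ, i < j → j ≤ m → f i = f j → False := by
    intro i j hij hj heq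
    apply hterm
    refine ⟨fun t => f (i + t % (j - i)), ?_⟩
    intro t
    have hpos : 0 < j - i := by omega
    have hlt := Nat.mod_lt t hpos
    obtain ⟨x, y, p, hp, h1, h2⟩ := hf (i + t % (j - i)) (by omega)
    refine ⟨x, y, p, hp, h1, ?_⟩
    by_cases hc : t % (j - i) + 1 = j - i
    · have e : (t + 1) % (j - i) = 0 := by
        rw [Nat.add_mod, ]
        by_cases h1' : j - i = 1
        · rw [h1']; simp [Nat.mod_one]
        · rw [Nat.mod_eq_of_lt (show 1 < j - i by omega), hc, Nat.mod_self]
      show f (i + (t + 1) % (j - i)) = _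
      rw [e, add_zero, heq]
      have e2 : i + t % (j - i) + 1 = j := by omega
      rw [e2] at h2
      exact h2
    · have e : (t + 1) % (j - i) = t % (j - i) + 1 := by
        have hne : j - i ≠ 1 := by
          intro h
          apply hc
          rw [h]; simp [Nat.mod_one]
        rw [Nat.add_mod, Nat.mod_eq_of_lt (show 1 < j - i by omega),
          Nat.mod_eq_of_lt (by omega)]
      show f (i + (t + 1) % (j - i)) = _
      rw [e, ← add_assoc]
      exact h2
  rcases lt_or_gt_of_ne hij with h | h
  · exact main i j h (by omega) heq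
  · exact main j i h (by omega) heq.symm

theorem H_length_le (c : ℤ) (σ : List (ℤ × (List α × List α))) : (H c σ).length ≤ σ.length := by
  unfold H
  rw [List.length_map]
  exact List.length_filter_le _ _

theorem script_mem_DS (S : Finset (List α × List α))
    (hlen : ∀ p ∈ S, p.1.length = p.2.length) (hpos : ∀ p ∈ S, 0 < p.1.length)
    (w : ℤ → Option α) (σ : List (ℤ × (List α × List α))) (lo : ℤ) (n : ℕ)
    (hv : Valid S w σ) (hw : IsWord w lo (lo + n)) : σ.length ∈ DS S n := by
  obtain ⟨l, hl, hl'⟩ := exists_list w lo n hw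
  rw [← hl'] at hv
  obtain ⟨f, hf0, hf⟩ := exists_deriv S hlen hpos lo σ l hv
  exact ⟨f, by rw [hf0, hl], hf⟩

/-! ### The bound on histories -/

/-- If the longest derivations on words of length `n` are `o(n log n)`, the histories of all cells
in all derivations have bounded length. -/
theorem history_bdd [DecidableEq α] [Finite α] (S : Finset (List α × List α))
    (hne : S.Nonempty)
    (hlen : ∀ p ∈ S, p.1.length = p.2.length) (hpos : ∀ p ∈ S, 0 < p.1.length)
    (hbdd : ∀ n, BddAbove (DS S n))
    (ho : (fun n : ℕ => ((sSup (DS S n) : ℕ) : ℝ)) =o[Filter.atTop]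
      (fun n : ℕ => (n : ℝ) * Real.log (n : ℝ))) :
    ∃ C : ℕ, ∀ (E : List (ℤ × (List α × List α))) (a b : ℕ), 0 < b → Realized S E a b →
      E.length ≤ C := by
  classical
  -- parameters
  obtain ⟨K, hK⟩ : ∃ K : ℕ, ∀ p ∈ S, p.1.length ≤ K :=
    ⟨S.sup (fun p => p.1.length), fun p hp => Finset.le_sup (f := fun p => p.1.length) hp⟩
  obtain ⟨p0, hp0⟩ := hne
  have hKpos : 0 < K := lt_of_lt_of_le (hpos p0 hp0) (hK p0 hp0)
  have hScard : 0 < S.card := Finset.card_pos.2 ⟨p0, hp0⟩
  set Q : ℕ := K * S.card + 1 with hQ
  have hQ2 : 2 ≤ Q := by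
    have : 0 < K * S.card := Nat.mul_pos hKpos hScard
    omega
  have hlogQ : 0 < Real.log Q := Real.log_pos (by exact_mod_cast (by omega : 1 < Q))
  set ε : ℝ := 1 / (16 * K * Real.log Q) with hε
  have hKr : (0 : ℝ) < K := by exact_mod_cast hKpos
  have hεpos : 0 < ε := by rw [hε]; positivity
  have hev := (Asymptotics.isLittleO_iff.1 ho) hεpos
  obtain ⟨N, hN⟩ := Filter.eventually_atTop.1 hev
  set N0 : ℕ := max N 17 with hN0
  -- key: minimal words are short
  have key : ∀ (a b : ℕ) (w : ℤ → Option α) (σ : List (ℤ × (List α × List α))), 0 < b →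
      Valid S w σ → IsWord w (-(a : ℤ)) b →
      Set.InjOn (fun g => H g σ) (Set.Icc (-(a : ℤ)) 0) →
      Set.InjOn (fun g => H g σ) (Set.Ico 0 (b : ℤ)) → a + b < N0 := by
    intro a b w σ hb hv hw hinj1 hinj2
    by_contra hcon
    rw [not_lt] at hcon
    set n := a + b with hn
    -- a finset of at least n / 2 cells with distinct histories
    obtain ⟨G, hG, hGcard⟩ : ∃ G : Finset ℤ, Set.InjOn (fun g => H g σ) (G : Set ℤ) ∧
        n ≤ 2 * G.card := by
      rcases le_total a b with hab | hab
      · refine ⟨Finset.Ico 0 (b : ℤ), by simpa using hinj2, ?_⟩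
        simp
        omega
      · refine ⟨Finset.Icc (-(a : ℤ)) 0, by simpa using hinj1, ?_⟩
        simp
        omega
    have hmem : σ.length ∈ DS S n := by
      apply script_mem_DS S hlen hpos w σ (-(a : ℤ)) n hv
      have e : -(a : ℤ) + (n : ℕ) = b := by rw [hn]; push_cast; ring
      rw [e]
      exact hw
    have hσle : σ.length ≤ sSup (DS S n) := le_csSup (hbdd n) hmem
    have hD := hN n (le_trans (le_max_left _ _) hcon)
    have hn17 : 17 ≤ n := le_trans (le_max_right _ _) hcon
    have hnr : (17 : ℝ) ≤ n := by exact_mod_cast hn17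
    have hlogn : 0 < Real.log n := Real.log_pos (by linarith)
    rw [Real.norm_of_nonneg (by positivity), Real.norm_of_nonneg (by positivity)] at hD
    set l := Nat.log Q (G.card / 2) with hl
    have hlow := sum_lower S K hK G σ hv.1 hG l
    rw [← hQ] at hlow
    have hG2 : G.card / 2 ≠ 0 := by omega
    have hpow : Q ^ l ≤ G.card / 2 := Nat.pow_log_le_self Q hG2
    have hpow2 : G.card / 2 < Q ^ (l + 1) := Nat.lt_pow_succ_log_self (by omega) _
    have h1 : (G.card : ℝ) / 2 ≤ (G.card - Q ^ l : ℕ) := by
      have : G.card ≤ 2 * (G.card - Q ^ l) := by omega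
      have : (G.card : ℝ) ≤ 2 * ((G.card - Q ^ l : ℕ) : ℝ) := by exact_mod_cast this
      linarith
    have h2 : (n : ℝ) / 4 ≤ (G.card - Q ^ l : ℕ) := by
      have : (n : ℝ) ≤ 2 * G.card := by exact_mod_cast hGcard
      linarith
    have h3 : (n : ℝ) / 4 < (Q : ℝ) ^ (l + 1) := by
      have h4 : G.card < 2 * Q ^ (l + 1) := by omega
      have h5 : (G.card : ℝ) < 2 * (Q : ℝ) ^ (l + 1) := by exact_mod_cast h4
      have : (n : ℝ) ≤ 2 * G.card := by exact_mod_cast hGcard
      linarith
    have h6 : Real.log ((n : ℝ) / 4) ≤ (l + 1 : ℝ) * Real.log Q := by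
      have := Real.log_le_log (by positivity) h3.le
      rw [Real.log_pow] at this
      simpa using this
    have h7 : Real.log n / 2 < Real.log ((n : ℝ) / 4) := by
      have hsq : Real.log n / 2 = Real.log (Real.sqrt n) := by
        rw [Real.log_sqrt (by positivity)]
      rw [hsq]
      apply Real.log_lt_log (by positivity)
      rw [Real.sqrt_lt' (by positivity)]
      nlinarith
    have h8 : ((G.card - Q ^ l : ℕ) : ℝ) * (l + 1) ≤ K * σ.length := by exact_mod_cast hlow
    have h9 : (σ.length : ℝ) ≤ ε * (n * Real.log n) := by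
      refine le_trans ?_ hD
      exact_mod_cast hσle
    have h10 : (n : ℝ) / 4 * (Real.log n / (2 * Real.log Q)) <
        ((G.card - Q ^ l : ℕ) : ℝ) * (l + 1) := by
      have h11 : Real.log n / (2 * Real.log Q) < l + 1 := by
        rw [div_lt_iff₀ (by positivity)]
        nlinarith
      calc (n : ℝ) / 4 * (Real.log n / (2 * Real.log Q)) < (n : ℝ) / 4 * (l + 1) := by
            apply mul_lt_mul_of_pos_left h11
            positivity
        _ ≤ _ := by
            apply mul_le_mul_of_nonneg_right h2
            positivity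
    have h12 : (K : ℝ) * σ.length ≤ (n : ℝ) / 4 * (Real.log n / (4 * Real.log Q)) := by
      calc (K : ℝ) * σ.length ≤ K * (ε * (n * Real.log n)) := by
            apply mul_le_mul_of_nonneg_left h9 hKr.le
        _ = (n : ℝ) / 4 * (Real.log n / (4 * Real.log Q)) := by
            rw [hε]
            field_simp
            norm_num
    have h13 : (n : ℝ) / 4 * (Real.log n / (4 * Real.log Q)) ≤
        (n : ℝ) / 4 * (Real.log n / (2 * Real.log Q)) := by
      apply mul_le_mul_of_nonneg_left _ (by positivity)
      apply div_le_div_of_nonneg_left hlogn.le (by positivity)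
      linarith
    linarith
  refine ⟨sSup (DS S N0), ?_⟩
  intro E a0 b0 hb0 hR
  obtain ⟨a, b, w, σ, hb, hv, hw, hE, hinj1, hinj2⟩ := exists_distinct S E a0 b0 hb0 hR
  have hlt := key a b w σ hb hv hw hinj1 hinj2
  have hmem : σ.length ∈ DS S (a + b) := by
    apply script_mem_DS S hlen hpos w σ (-(a : ℤ)) (a + b) hv
    have e : -(a : ℤ) + ((a + b : ℕ) : ℤ) = b := by push_cast; ring
    rw [e]
    exact hw
  have hmem' : σ.length ∈ DS S N0 := by
    obtain ⟨f, hf0, hf⟩ := hmem
    exact ⟨f, by omega, hf⟩
  calc E.length = (H 0 σ).length := by rw [hE]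
    _ ≤ σ.length := H_length_le 0 σ
    _ ≤ _ := le_csSup (hbdd N0) hmem'

theorem length_le_sum_H (S : Finset (List α × List α)) (hpos : ∀ p ∈ S, 0 < p.1.length)
    (lo hi : ℤ)
    (σ : List (ℤ × (List α × List α))) (hσ : ∀ s ∈ σ, s.2 ∈ S)
    (hcell : ∀ s ∈ σ, lo ≤ s.1 ∧ s.1 < hi) :
    σ.length ≤ ∑ g ∈ Finset.Ico lo hi, (H g σ).length := by
  induction σ with
  | nil => simp
  | cons s σ ih =>
    have ih' := ih (fun x hx => hσ x (by simp [hx])) (fun x hx => hcell x (by simp [hx]))
    simp only [H_cons_length, Finset.sum_add_distrib, List.length_cons]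
    have h1 : 1 ≤ ∑ g ∈ Finset.Ico lo hi, (if Touch g s then 1 else 0) := by
      have hmem : s.1 ∈ Finset.Ico lo hi := by
        rw [Finset.mem_Ico]
        exact hcell s (by simp)
      have ht : Touch s.1 s := by
        constructor
        · exact le_rfl
        · have := hpos s.2 (hσ s (by simp))
          omega
      calc 1 = (if Touch s.1 s then 1 else 0) := by rw [if_pos ht]
        _ ≤ _ := Finset.single_le_sum (f := fun g => if Touch g s then 1 else 0)
            (fun _ _ => Nat.zero_le _) hmem
    omega

/-- in a chain at an empty cell nothing touches -/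
theorem chain_none (S : Finset (List α × List α)) (c : ℤ) :
    ∀ σ : List (ℤ × (List α × List α)), Chain c none σ → ∀ s ∈ σ, s.2 ∈ S → ¬ Touch c s := by
  intro σ
  induction σ with
  | nil => intro _ s hs; simp at hs
  | cons s σ ih =>
    intro h s' hs' hS
    unfold Chain at h
    by_cases ht : Touch c s
    · rw [if_pos ht] at h
      exfalso
      have h1 := h.1
      unfold bef at h1
      have h2 := List.getElem?_eq_none_iff.1 h1.symm
      obtain ⟨ht1, ht2⟩ := ht
      omega
    · rw [if_neg ht] at h
      rcases List.mem_cons.1 hs' with rfl | hs'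
      · exact ht
      · exact ih h s' hs' hS

/-- Linear bound from bounded histories. -/
theorem linear_bound (S : Finset (List α × List α))
    (hlen : ∀ p ∈ S, p.1.length = p.2.length) (hpos : ∀ p ∈ S, 0 < p.1.length)
    (C : ℕ) (hC : ∀ (E : List (ℤ × (List α × List α))) (a b : ℕ), 0 < b → Realized S E a b →
      E.length ≤ C) (n m : ℕ) (hm : m ∈ DS S n) : m ≤ C * n := by
  obtain ⟨f, hf0, hf⟩ := hm
  obtain ⟨σ, hσ, hv⟩ := exists_script S hlen m f hf
  set L := (f 0).length with hL
  have hw : IsWord (toW 0 (f 0)) 0 L := by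
    intro c
    unfold toW
    by_cases h : (0 : ℤ) ≤ c
    · rw [if_pos h]
      rw [Option.isSome_iff_ne_none, Ne, List.getElem?_eq_none_iff]
      omega
    · rw [if_neg h]
      simp [h]
  have hcell : ∀ s ∈ σ, (0 : ℤ) ≤ s.1 ∧ s.1 < L := by
    intro s hs
    have hsS := hv.1 s hs
    by_contra hcon
    have hnone : toW 0 (f 0) s.1 = none := by
      have h1 : ¬ (toW 0 (f 0) s.1).isSome = true := by
        rw [hw]
        exact hcon
      simpa using h1
    have hch := hv.2 s.1
    rw [hnone] at hch
    apply chain_none S s.1 σ hch s hs hsS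
    constructor
    · exact le_rfl
    · have := hpos s.2 hsS
      omega
  have h1 := length_le_sum_H S hpos 0 L σ hv.1 hcell
  have h2 : ∀ g ∈ Finset.Ico (0 : ℤ) L, (H g σ).length ≤ C := by
    intro g hg
    rw [Finset.mem_Ico] at hg
    obtain ⟨k, hk⟩ := Int.eq_ofNat_of_zero_le hg.1
    have hk2 : k < L := by
      have : (k : ℤ) < L := by rw [← hk]; exact hg.2
      exact_mod_cast this
    apply hC (H g σ) k (L - k) (by omega)
    refine ⟨_, _, valid_sh S _ σ (-g) hv, ?_, ?_⟩
    · have := isWord_sh _ _ _ (-g) hw
      have e1 : (0 : ℤ) + -g = -(k : ℤ) := by rw [hk]; simp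
      have e2 : (L : ℤ) + -g = ((L - k : ℕ) : ℤ) := by
        rw [hk, Nat.cast_sub hk2.le]
        simp [sub_eq_add_neg]
      rw [e1, e2] at this
      exact this
    · have := H_sh g (-g) σ
      rw [add_neg_cancel] at this
      exact this
  have h3 := Finset.sum_le_sum h2
  rw [Finset.sum_const, Int.card_Ico] at h3
  have h4 : ((L : ℤ) - 0).toNat = L := by simp
  rw [h4, smul_eq_mul] at h3
  calc m = σ.length := hσ.symm
    _ ≤ L * C := le_trans h1 h3
    _ ≤ n * C := Nat.mul_le_mul_right _ hf0
    _ = C * n := Nat.mul_comm _ _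

/-- The trivial linear lower bound. -/
theorem linear_lower (S : Finset (List α × List α)) (p : List α × List α) (hp : p ∈ S)
    (t n : ℕ) (ht : t * p.1.length ≤ n) : t ∈ DS S n := by
  have hflat : ∀ (u : List α) (j : ℕ), (List.replicate (j + 1) u).flatten
      = (List.replicate j u).flatten ++ u := by
    intro u j
    rw [List.replicate_succ', List.flatten_append]
    simp
  have hflat' : ∀ (u : List α) (j : ℕ), (List.replicate (j + 1) u).flatten
      = u ++ (List.replicate j u).flatten := by
    intro u j
    rw [List.replicate_succ]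
    simp
  refine ⟨fun i => (List.replicate i p.2).flatten ++ (List.replicate (t - i) p.1).flatten, ?_, ?_⟩
  · simp
    exact ht
  · intro i hi
    refine ⟨(List.replicate i p.2).flatten, (List.replicate (t - i - 1) p.1).flatten, p, hp, ?_, ?_⟩
    · have e : t - i = (t - i - 1) + 1 := by omega
      show (List.replicate i p.2).flatten ++ (List.replicate (t - i) p.1).flatten = _
      rw [e, hflat' p.1 (t - i - 1)]
      simp
    · have e : t - (i + 1) = t - i - 1 := by omega
      show (List.replicate (i + 1) p.2).flatten ++ (List.replicate (t - (i + 1)) p.1).flatten = _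
      rw [e, hflat p.2 i]

/-- Gap theorem: a finite nonempty terminating length-preserving semi-Thue system whose
derivational complexity is `o(n log n)` has derivational complexity `Θ(n)`. -/
theorem gap [Finite α] (S : Finset (List α × List α)) (hne : S.Nonempty)
    (hlen : ∀ p ∈ S, p.1.length = p.2.length)
    (hterm : ¬ ∃ f : ℕ → List α, ∀ i : ℕ, ∃ x y : List α, ∃ p ∈ S,
        f i = x ++ p.1 ++ y ∧ f (i + 1) = x ++ p.2 ++ y)
    (ho : (fun n : ℕ => ((sSup (DS S n) : ℕ) : ℝ)) =o[Filter.atTop]
      (fun n : ℕ => (n : ℝ) * Real.log (n : ℝ))) :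
    (fun n : ℕ => ((sSup (DS S n) : ℕ) : ℝ)) =Θ[Filter.atTop] (fun n : ℕ => (n : ℝ)) := by
  classical
  have hpos := pos_of_term S hlen hterm
  have hbdd := bdd S hlen hterm
  obtain ⟨C, hC⟩ := history_bdd S hne hlen hpos hbdd ho
  obtain ⟨p0, hp0⟩ := hne
  have hzero : ∀ n, 0 ∈ DS S n := fun n => ⟨fun _ => [], by simp, by intro i hi; omega⟩
  constructor
  · apply Asymptotics.IsBigO.of_bound (C : ℝ)
    apply Filter.Eventually.of_forall
    intro n
    rw [Real.norm_of_nonneg (by positivity), Real.norm_of_nonneg (by positivity)]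
    have h1 : sSup (DS S n) ∈ DS S n := Nat.sSup_mem ⟨0, hzero n⟩ (hbdd n)
    have h2 := linear_bound S hlen hpos C hC n _ h1
    exact_mod_cast h2
  · apply Asymptotics.IsBigO.of_bound (2 * (p0.1.length : ℝ))
    filter_upwards [Filter.eventually_ge_atTop p0.1.length] with n hn
    rw [Real.norm_of_nonneg (by positivity), Real.norm_of_nonneg (by positivity)]
    have hpp := hpos p0 hp0
    have h1 : n / p0.1.length ∈ DS S n :=
      linear_lower S p0 hp0 _ n (Nat.div_mul_le_self n _)
    have h2 : n / p0.1.length ≤ sSup (DS S n) := le_csSup (hbdd n) h1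
    have h3 : n < p0.1.length * (n / p0.1.length + 1) := Nat.lt_mul_div_succ n hpp
    have h4 : 1 ≤ n / p0.1.length := (Nat.one_le_div_iff hpp).2 hn
    have h5 : n ≤ 2 * p0.1.length * sSup (DS S n) := by
      calc n ≤ p0.1.length * (n / p0.1.length + 1) := h3.le
        _ ≤ p0.1.length * (2 * (n / p0.1.length)) := by
            apply Nat.mul_le_mul_left; omega
        _ ≤ p0.1.length * (2 * sSup (DS S n)) := by
            apply Nat.mul_le_mul_left; omega
        _ = 2 * p0.1.length * sSup (DS S n) := by ring
    exact_mod_cast h5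

end Pool.Agent.W2helper61.SemiThue
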